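import Mathlib

namespace Pool.Agent.Results.MP_140fc6_an.FinitePoints

open Metric

section Defs

variable (X : Type*) [NormedAddCommGroup X] [NormedSpace ℝ X]

/-- `X` is weakly octahedral. -/
def WeaklyOctahedral : Prop :=
  ∀ (E : Submodule ℝ X), FiniteDimensional ℝ E → ∀ (f : X →L[ℝ] ℝ), ‖f‖ ≤ 1 →
    ∀ ε : ℝ, 0 < ε → ∃ y : X, ‖y‖ = 1 ∧ ∀ x ∈ E, (1 - ε) * (|f x| + ‖y‖) ≤ ‖x + y‖

/-- Property (P): the inequality at finitely many points of the unit sphere. -/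
def PropertyP : Prop :=
  ∀ ε : ℝ, 0 < ε → ∀ (n : ℕ) (x : Fin n → X), (∀ i, ‖x i‖ = 1) → ∀ (f : X →L[ℝ] ℝ), ‖f‖ ≤ 1 →
    ∃ y : X, ‖y‖ = 1 ∧ ∀ i, (1 - ε) * (|f (x i)| + 1) ≤ ‖x i + y‖

end Defs

variable {X : Type*} [NormedAddCommGroup X] [NormedSpace ℝ X]

/-- version of (P) with finite sets -/
theorem PropertyP.finset (h : PropertyP X) {ε : ℝ} (hε : 0 < ε) (s : Finset X)
    (hs : ∀ x ∈ s, ‖x‖ = 1) (f : X →L[ℝ] ℝ) (hf : ‖f‖ ≤ 1) :
    ∃ y : X, ‖y‖ = 1 ∧ ∀ x ∈ s, (1 - ε) * (|f x| + 1) ≤ ‖x + y‖ := by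
  obtain ⟨y, hy, hy'⟩ := h ε hε s.card (fun i => (s.equivFin.symm i : X))
    (fun i => hs _ (s.equivFin.symm i).2) f hf
  refine ⟨y, hy, fun x hx => ?_⟩
  have := hy' (s.equivFin ⟨x, hx⟩)
  simpa using this

theorem WeaklyOctahedral.propertyP (h : WeaklyOctahedral X) : PropertyP X := by
  intro ε hε n x _ f hf
  obtain ⟨y, hy, hy'⟩ := h (Submodule.span ℝ (Set.range x))
    (FiniteDimensional.span_of_finite ℝ (Set.finite_range x)) f hf ε hε
  refine ⟨y, hy, fun i => ?_⟩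
  have := hy' (x i) (Submodule.subset_span ⟨i, rfl⟩)
  rwa [hy] at this

/-- separation in the dual of a finite-dimensional space -/
theorem sep' {E : Type*} [NormedAddCommGroup E] [NormedSpace ℝ E] [FiniteDimensional ℝ E]
    (J : E →L[ℝ] X) (hJ : ∀ z, ‖J z‖ = ‖z‖) (K : Set (X →L[ℝ] ℝ)) (hK : Convex ℝ K)
    (hne : K.Nonempty) (f : X →L[ℝ] ℝ) {η : ℝ} (hη : 0 < η)
    (h : ∀ z : E, ‖z‖ = 1 → ∃ g ∈ K, f (J z) - η < g (J z)) :
    ∃ g ∈ K, ∀ x : E, |g (J x) - f (J x)| ≤ η * ‖x‖ := by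
  by_contra hcon
  push Not at hcon
  let R : (X →L[ℝ] ℝ) →ₗ[ℝ] (E →L[ℝ] ℝ) :=
    { toFun := fun g => g.comp J
      map_add' := fun a b => by ext; simp
      map_smul' := fun a b => by ext; simp }
  have hdis : Disjoint (ball (R f) η) (R '' K) := by
    rw [Set.disjoint_left]
    rintro φ hφ ⟨g, hg, rfl⟩
    obtain ⟨x, hx⟩ := hcon g hg
    rw [mem_ball, dist_eq_norm] at hφ
    have h1 : |g (J x) - f (J x)| ≤ ‖R g - R f‖ * ‖x‖ := (R g - R f).le_opNorm x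
    have h2 : ‖R g - R f‖ * ‖x‖ ≤ η * ‖x‖ := by gcongr
    linarith
  obtain ⟨Λ, u, h1, h2⟩ := geometric_hahn_banach_open (convex_ball (R f) η) isOpen_ball
    (hK.is_linear_image R.isLinear) hdis
  -- `Λ` is the evaluation at a point
  obtain ⟨z, hz⟩ : ∃ z : E, ∀ φ : E →L[ℝ] ℝ, Λ φ = φ z := by
    let L : Module.Dual ℝ (Module.Dual ℝ E) :=
      Λ.toLinearMap ∘ₗ (LinearMap.toContinuousLinearMap : (E →ₗ[ℝ] ℝ) ≃ₗ[ℝ] (E →L[ℝ] ℝ)).toLinearMap
    refine ⟨(Module.evalEquiv ℝ E).symm L, fun φ => ?_⟩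
    have h3 : L (φ : E →ₗ[ℝ] ℝ) = (φ : E →ₗ[ℝ] ℝ) ((Module.evalEquiv ℝ E).symm L) := by
      have h4 := (Module.evalEquiv ℝ E).apply_symm_apply L
      conv_lhs => rw [← h4]
      rfl
    have h5 : L (φ : E →ₗ[ℝ] ℝ) = Λ φ := by
      show Λ (LinearMap.toContinuousLinearMap (φ : E →ₗ[ℝ] ℝ)) = Λ φ
      congr 1
    rw [← h5, h3]
    rfl
  have hfu : Λ (R f) < u := h1 _ (mem_ball_self hη)
  have hz0 : z ≠ 0 := by
    rintro rfl
    obtain ⟨g, hg⟩ := hne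
    have h3 := h2 (R g) ⟨g, hg, rfl⟩
    rw [hz, map_zero] at h3
    rw [hz, map_zero] at hfu
    linarith
  have hzpos : 0 < ‖z‖ := norm_pos_iff.2 hz0
  obtain ⟨φ, hφ1, hφz⟩ := exists_dual_vector ℝ z hzpos.ne'
  obtain ⟨g, hg, hgz⟩ := h (-(‖z‖⁻¹ • z)) (by
      rw [norm_neg, norm_smul, norm_inv, norm_norm, inv_mul_cancel₀ hzpos.ne'])
  have hgu : u ≤ g (J z) := by
    have := h2 (R g) ⟨g, hg, rfl⟩
    rw [hz] at this
    exact this
  have hfu' : f (J z) < u := by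
    rw [hz] at hfu
    exact hfu
  have hlt : g (J z) - f (J z) < η * ‖z‖ := by
    rw [map_neg, map_neg, map_neg, map_smul, map_smul, map_smul, smul_eq_mul, smul_eq_mul] at hgz
    have h3 : ‖z‖⁻¹ * (g (J z) - f (J z)) < η := by
      rw [mul_sub]; linarith
    rwa [inv_mul_lt_iff₀ hzpos, mul_comm] at h3
  set t : ℝ := (g (J z) - f (J z)) / ‖z‖ with ht
  have ht0 : 0 < t := div_pos (by linarith) hzpos
  have htη : t < η := by rw [ht, div_lt_iff₀ hzpos]; exact hlt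
  have h3 := h1 (R f + t • φ) (by
    rw [mem_ball, dist_eq_norm, add_sub_cancel_left, norm_smul, hφ1, Real.norm_eq_abs,
      abs_of_pos ht0, mul_one]
    exact htη)
  rw [hz] at h3
  have h4 : (R f + t • φ) z = f (J z) + t * ‖z‖ := by
    rw [_root_.add_apply, _root_.smul_apply, hφz]
    rfl
  rw [h4, ht, div_mul_cancel₀ _ hzpos.ne'] at h3
  linarith

theorem sep (E : Submodule ℝ X) [FiniteDimensional ℝ E] (K : Set (X →L[ℝ] ℝ)) (hK : Convex ℝ K)
    (hne : K.Nonempty) (f : X →L[ℝ] ℝ) {η : ℝ} (hη : 0 < η)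
    (h : ∀ z ∈ E, ‖z‖ = 1 → ∃ g ∈ K, f z - η < g z) :
    ∃ g ∈ K, ∀ x ∈ E, |g x - f x| ≤ η * ‖x‖ := by
  obtain ⟨g, hg, hg'⟩ := sep' E.subtypeL (fun _ => rfl) K hK hne f hη
    (fun z hz => h z z.2 hz)
  exact ⟨g, hg, fun x hx => hg' ⟨x, hx⟩⟩

/-- The main local lemma. -/
theorem core (E : Submodule ℝ X) [FiniteDimensional ℝ E] {η : ℝ} (hη : 0 < η) (hη1 : η < 1)
    (t : Set X) (htE : ∀ z ∈ E, ‖z‖ = 1 → ∃ z' ∈ t, ‖z - z'‖ < η / 4)
    (f : X →L[ℝ] ℝ) (hf : ‖f‖ ≤ 1) (ht1 : ∀ z ∈ t, ‖z‖ = 1)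
    (w : X) (hw : ‖w‖ = 1) {ε : ℝ} (hε : ε = η ^ 2 / 80) (hfw : 1 - ε ≤ f w) (y : X)
    (hy : ‖y‖ = 1)
    (hP : ∀ z ∈ t, (1 - ε) * (|f (‖w + (η / 4) • z‖⁻¹ • (w + (η / 4) • z))| + 1) ≤
      ‖‖w + (η / 4) • z‖⁻¹ • (w + (η / 4) • z) + y‖)
    (hy0 : ∃ g : X →L[ℝ] ℝ, ‖g‖ ≤ 1 ∧ g y = 1) :
    ∃ g : X →L[ℝ] ℝ, ‖g‖ ≤ 1 ∧ 1 - η ≤ g y ∧ ∀ x ∈ E, |g x - f x| ≤ η * ‖x‖ := by
  let K : Set (X →L[ℝ] ℝ) := {g | ‖g‖ ≤ 1 ∧ 1 - η ≤ g y}
  have hKc : Convex ℝ K := by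
    intro a ha b hb r s hr hs hrs
    refine ⟨?_, ?_⟩
    · calc ‖r • a + s • b‖ ≤ ‖r • a‖ + ‖s • b‖ := norm_add_le _ _
        _ = r * ‖a‖ + s * ‖b‖ := by
            rw [norm_smul, norm_smul, Real.norm_eq_abs, Real.norm_eq_abs, abs_of_nonneg hr,
              abs_of_nonneg hs]
        _ ≤ 1 := by nlinarith [ha.1, hb.1]
    · rw [_root_.add_apply, _root_.smul_apply, _root_.smul_apply, smul_eq_mul, smul_eq_mul]
      have h1 : s = 1 - r := by linarith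
      nlinarith [ha.2, hb.2]
  have hKne : K.Nonempty := by
    obtain ⟨g, hg, hgy⟩ := hy0
    exact ⟨g, hg, by rw [hgy]; linarith⟩
  have hεpos : 0 < ε := by rw [hε]; positivity
  have hεη : ε ≤ η / 80 := by rw [hε]; nlinarith
  have hmain : ∀ z ∈ t, ∃ g ∈ K, f z - η / 4 ≤ g z := by
    intro z hz
    have hz1 := ht1 z hz
    set p : X := w + (η / 4) • z with hp
    have hsm : ‖(η / 4) • z‖ = η / 4 := by
      rw [norm_smul, hz1, mul_one, Real.norm_eq_abs, abs_of_pos (by positivity)]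
    have hp1 : ‖p‖ ≤ 1 + η / 4 := by
      calc ‖p‖ ≤ ‖w‖ + ‖(η / 4) • z‖ := norm_add_le _ _
        _ = 1 + η / 4 := by rw [hw, hsm]
    have hp2 : 1 - η / 4 ≤ ‖p‖ := by
      have := norm_sub_norm_le w (-((η / 4) • z))
      rw [norm_neg, hw, hsm, sub_neg_eq_add] at this
      exact this
    have hp0 : 0 < ‖p‖ := by linarith
    set q : X := ‖p‖⁻¹ • p with hq
    have hq1 : ‖q‖ = 1 := by rw [hq, norm_smul, norm_inv, norm_norm, inv_mul_cancel₀ hp0.ne']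
    have hPz := hP z hz
    have hne : q + y ≠ 0 := by
      intro h0
      rw [h0, norm_zero] at hPz
      have h1 : 0 ≤ |f q| := abs_nonneg _
      have h2 : 0 < 1 - ε := by linarith
      nlinarith
    obtain ⟨g, hg1, hgq⟩ := exists_dual_vector ℝ (q + y) (norm_ne_zero_iff.2 hne)
    have hgq' : g q + g y = ‖q + y‖ := by rw [← map_add, hgq]; simp
    have hgle : ∀ x, g x ≤ ‖x‖ := fun x => by
      calc g x ≤ ‖g x‖ := le_abs_self _
        _ ≤ ‖g‖ * ‖x‖ := g.le_opNorm x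
        _ = ‖x‖ := by rw [hg1, one_mul]
    have hfle : ∀ x, |f x| ≤ ‖x‖ := fun x => by
      calc |f x| = ‖f x‖ := (Real.norm_eq_abs _).symm
        _ ≤ ‖f‖ * ‖x‖ := f.le_opNorm x
        _ ≤ 1 * ‖x‖ := by gcongr
        _ = ‖x‖ := one_mul _
    have hgq1 : g q ≤ 1 := by simpa [hq1] using hgle q
    have hgy1 : g y ≤ 1 := by simpa [hy] using hgle y
    have hgw1 : g w ≤ 1 := by simpa [hw] using hgle w
    have hfz := abs_le.1 (hfle z)
    rw [hz1] at hfz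
    -- value of `f` at `q`
    have hfp : f p = f w + (η / 4) * f z := by rw [hp, map_add, map_smul, smul_eq_mul]
    have hgp : g p = g w + (η / 4) * g z := by rw [hp, map_add, map_smul, smul_eq_mul]
    have hfq : ‖p‖ * f q = f p := by
      rw [hq, map_smul, smul_eq_mul, mul_inv_cancel_left₀ hp0.ne']
    have hgq2 : ‖p‖ * g q = g p := by
      rw [hq, map_smul, smul_eq_mul, mul_inv_cancel_left₀ hp0.ne']
    have hfq1 : |f q| ≤ 1 := by simpa [hq1] using hfle q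
    have hfq2 : f q ≤ |f q| := le_abs_self _
    have h5 : (1 - ε) * (|f q| + 1) ≤ g q + g y := by rw [hgq']; exact hPz
    have h6 : |f q| + 1 - 2 * ε ≤ g q + g y := by nlinarith
    refine ⟨g, ⟨hg1.le, ?_⟩, ?_⟩
    · -- `g y ≥ 1 - η`
      have h7 : 1 - ε - η / 4 ≤ ‖p‖ * f q := by rw [hfq, hfp]; nlinarith
      have h8 : 1 - ε - η / 2 ≤ f q := by
        by_contra hcon
        push Not at hcon
        have h9 : 0 ≤ 1 - ε - η / 2 := by linarith
        have h10 : ‖p‖ * f q < ‖p‖ * (1 - ε - η / 2) := by gcongr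
        have h11 : ‖p‖ * (1 - ε - η / 2) ≤ (1 + η / 4) * (1 - ε - η / 2) := by gcongr
        nlinarith
      linarith
    · have h7 : f q - 2 * ε ≤ g q := by linarith
      have h8 : f p - 2 * ε * ‖p‖ ≤ g p := by
        rw [← hfq, ← hgq2]; nlinarith
      rw [hfp, hgp] at h8
      have h9 : 2 * ε * ‖p‖ ≤ 4 * ε := by nlinarith
      have h10 : (η / 4) * (f z - g z) ≤ 5 * ε := by nlinarith
      have h11 : 5 * ε = (η / 4) * (η / 4) := by rw [hε]; ring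
      rw [h11] at h10
      have h12 : f z - g z ≤ η / 4 := le_of_mul_le_mul_left h10 (by positivity)
      linarith
  obtain ⟨g, hg, hg'⟩ := sep E K hKc hKne f hη (by
    intro z hzE hz1
    obtain ⟨z', hz', hzz'⟩ := htE z hzE hz1
    obtain ⟨g, hg, hgz⟩ := hmain z' hz'
    refine ⟨g, hg, ?_⟩
    have h1 : |g (z - z')| ≤ η / 4 := by
      calc |g (z - z')| = ‖g (z - z')‖ := (Real.norm_eq_abs _).symm
        _ ≤ ‖g‖ * ‖z - z'‖ := g.le_opNorm _
        _ ≤ 1 * (η / 4) := by gcongr; exact hg.1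
        _ = η / 4 := one_mul _
    have h2 : |f (z - z')| ≤ η / 4 := by
      calc |f (z - z')| = ‖f (z - z')‖ := (Real.norm_eq_abs _).symm
        _ ≤ ‖f‖ * ‖z - z'‖ := f.le_opNorm _
        _ ≤ 1 * (η / 4) := by gcongr
        _ = η / 4 := one_mul _
    rw [map_sub] at h1 h2
    have h3 := abs_le.1 h1
    have h4 := abs_le.1 h2
    linarith [h3.1, h3.2, h4.1, h4.2])
  exact ⟨g, hg.1, hg.2, hg'⟩

/-- (P) excludes finite-dimensional spaces. -/
theorem PropertyP.infinite (h : PropertyP X) : ¬ FiniteDimensional ℝ X := by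
  intro hfd
  have : ProperSpace X := FiniteDimensional.proper ℝ X
  obtain ⟨t, hts, htf, hcov⟩ := (isCompact_sphere (0 : X) 1).finite_cover_balls
    (e := 1 / 2) (by norm_num)
  obtain ⟨y, hy, hy'⟩ := h.finset (ε := 1 / 2) (by norm_num) htf.toFinset (by
    intro x hx
    have := hts (htf.mem_toFinset.1 hx)
    simpa using this) 0 (by simp)
  have h1 : -y ∈ sphere (0 : X) 1 := by simp [hy]
  have h2 := hcov h1
  simp only [Set.mem_iUnion, mem_ball, exists_prop] at h2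
  obtain ⟨x, hx, hxy⟩ := h2
  have h3 := hy' x (htf.mem_toFinset.2 hx)
  rw [dist_comm, dist_eq_norm, sub_neg_eq_add] at hxy
  simp at h3
  linarith

/-- Extension to a norm one functional. -/
theorem exists_norm_one (hX : ¬ FiniteDimensional ℝ X) (E : Submodule ℝ X)
    [FiniteDimensional ℝ E] (f : X →L[ℝ] ℝ) (hf : ‖f‖ ≤ 1) :
    ∃ f' : X →L[ℝ] ℝ, ‖f'‖ = 1 ∧ ∀ x ∈ E, f' x = f x := by
  obtain ⟨P, hP⟩ := Submodule.ClosedComplemented.of_finiteDimensional E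
  have hE : E ≠ ⊤ := by
    rintro rfl
    exact hX (LinearEquiv.finiteDimensional (Submodule.topEquiv (R := ℝ) (M := X)))
  obtain ⟨x₀, hx₀⟩ : ∃ x₀, x₀ ∉ E := by
    by_contra hcon
    push Not at hcon
    exact hE (Submodule.eq_top_iff'.2 hcon)
  have hne : x₀ - (P x₀ : X) ≠ 0 := by
    intro h0
    rw [sub_eq_zero] at h0
    exact hx₀ (h0 ▸ (P x₀).2)
  obtain ⟨φ, -, hφ⟩ := exists_dual_vector ℝ _ (norm_ne_zero_iff.2 hne)
  let h : X →L[ℝ] ℝ := φ.comp (ContinuousLinearMap.id ℝ X - E.subtypeL.comp P)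
  have hh : ∀ x ∈ E, h x = 0 := by
    intro x hx
    have : P x = ⟨x, hx⟩ := hP ⟨x, hx⟩
    simp [h, this]
  have hh0 : h ≠ 0 := by
    intro h0
    have h1 : h x₀ = 0 := by rw [h0]; rfl
    have h2 : h x₀ = ‖x₀ - (P x₀ : X)‖ := by
      have : h x₀ = φ (x₀ - (P x₀ : X)) := rfl
      rw [this, hφ]; simp
    rw [h1] at h2
    exact hne (norm_eq_zero.1 h2.symm)
  have hhpos : 0 < ‖h‖ := norm_pos_iff.2 hh0
  have hcont : Continuous (fun t : ℝ => ‖f + t • h‖) := by fun_prop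
  have h0 : ‖f + (0 : ℝ) • h‖ ≤ 1 := by simpa using hf
  have h1 : 1 ≤ ‖f + (2 / ‖h‖) • h‖ := by
    have h2 : ‖(2 / ‖h‖) • h‖ = 2 := by
      rw [norm_smul, Real.norm_eq_abs, abs_of_pos (by positivity), div_mul_cancel₀ _ hhpos.ne']
    have h3 := norm_sub_norm_le ((2 / ‖h‖) • h) (-f)
    rw [norm_neg, h2, sub_neg_eq_add, add_comm ((2 / ‖h‖) • h) f] at h3
    linarith
  obtain ⟨t, -, ht⟩ := intermediate_value_Icc (by positivity : (0 : ℝ) ≤ 2 / ‖h‖)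
    hcont.continuousOn ⟨h0, h1⟩
  refine ⟨f + t • h, ht, fun x hx => ?_⟩
  rw [_root_.add_apply, _root_.smul_apply, hh x hx, smul_zero, add_zero]

/-- almost norming vectors -/
theorem exists_almost (f : X →L[ℝ] ℝ) (hf : ‖f‖ = 1) {ε : ℝ} (hε : 0 < ε) :
    ∃ w : X, ‖w‖ = 1 ∧ 1 - ε ≤ f w := by
  rcases le_or_gt 1 ε with h | h
  · have : Nontrivial X := by
      by_contra hcon
      rw [not_nontrivial_iff_subsingleton] at hcon
      have : f = 0 := by ext x; rw [Subsingleton.elim x 0]; simp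
      rw [this, norm_zero] at hf
      norm_num at hf
    obtain ⟨w, hw⟩ := exists_norm_eq X (zero_le_one' ℝ)
    rcases le_total 0 (f w) with h1 | h1
    · exact ⟨w, hw, by linarith⟩
    · exact ⟨-w, by rw [norm_neg, hw], by rw [map_neg]; linarith⟩
  · obtain ⟨x, hx, hfx⟩ := f.exists_lt_apply_of_lt_opNorm (r := 1 - ε) (by rw [hf]; linarith)
    have hfx0 : 0 < ‖f x‖ := lt_trans (by linarith) hfx
    have hx0 : 0 < ‖x‖ := by
      rw [norm_pos_iff]; rintro rfl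
      simp at hfx0
    have key : ∀ s : ℝ, |s| = 1 → s * f x = ‖f x‖ → ∃ w : X, ‖w‖ = 1 ∧ 1 - ε ≤ f w := by
      intro s hs hsf
      refine ⟨(s * ‖x‖⁻¹) • x, ?_, ?_⟩
      · rw [norm_smul, Real.norm_eq_abs, abs_mul, hs, one_mul, abs_of_pos (inv_pos.2 hx0),
          inv_mul_cancel₀ hx0.ne']
      · rw [map_smul, smul_eq_mul, mul_right_comm, hsf]
        have : (1 : ℝ) ≤ ‖x‖⁻¹ := by
          rw [le_inv_comm₀ one_pos hx0, inv_one]; exact hx.le
        nlinarith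
    rcases le_total 0 (f x) with h1 | h1
    · exact key 1 (by simp) (by rw [one_mul, Real.norm_eq_abs, abs_of_nonneg h1])
    · exact key (-1) (by simp) (by rw [Real.norm_eq_abs, abs_of_nonpos h1]; ring)

theorem PropertyP.weaklyOctahedral (h : PropertyP X) : WeaklyOctahedral X := by
  classical
  intro E hE f₀ hf₀ ε₀ hε₀
  have hE' := hE
  obtain ⟨f, hf1, hff⟩ := exists_norm_one h.infinite E f₀ hf₀
  -- parameters
  set η : ℝ := min (ε₀ / 10) (1 / 10) with hηdef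
  have hη : 0 < η := by rw [hηdef]; positivity
  have hη1 : η ≤ 1 / 10 := min_le_right _ _
  have hηε : 10 * η ≤ ε₀ := by
    have := min_le_left (ε₀ / 10) (1 / 10)
    rw [← hηdef] at this
    linarith
  set ε : ℝ := η ^ 2 / 80 with hε
  have hεpos : 0 < ε := by rw [hε]; positivity
  obtain ⟨w, hw, hfw⟩ := exists_almost f hf1 hεpos
  have : ProperSpace E := FiniteDimensional.proper ℝ E
  obtain ⟨t₀, hts, htf, hcov⟩ := (isCompact_sphere (0 : E) 1).finite_cover_balls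
    (e := η / 4) (by positivity)
  let t : Set X := (fun z : E => (z : X)) '' t₀
  have htfin : t.Finite := htf.image _
  have ht1 : ∀ z ∈ t, ‖z‖ = 1 := by
    rintro _ ⟨z, hz, rfl⟩
    have := hts hz
    simpa using this
  have htE : ∀ z ∈ E, ‖z‖ = 1 → ∃ z' ∈ t, ‖z - z'‖ < η / 4 := by
    intro z hz hz1
    have h1 : (⟨z, hz⟩ : E) ∈ sphere (0 : E) 1 := by
      rw [mem_sphere, dist_zero_right]; exact hz1
    have h2 := hcov h1
    simp only [Set.mem_iUnion, mem_ball, exists_prop] at h2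
    obtain ⟨z', hz', hzz'⟩ := h2
    refine ⟨z', ⟨z', hz', rfl⟩, ?_⟩
    rw [dist_eq_norm] at hzz'
    exact hzz'
  -- points at which (P) is used
  let pt : X → X → X := fun v z => ‖v + (η / 4) • z‖⁻¹ • (v + (η / 4) • z)
  have hpt : ∀ v z, ‖v‖ = 1 → ‖z‖ = 1 → ‖pt v z‖ = 1 := by
    intro v z hv hz
    have h1 := norm_sub_norm_le v (-((η / 4) • z))
    rw [norm_neg, hv, norm_smul, hz, mul_one, Real.norm_eq_abs, abs_of_pos (by positivity),
      sub_neg_eq_add] at h1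
    have h2 : 0 < ‖v + (η / 4) • z‖ := by linarith
    simp only [pt]
    rw [norm_smul, norm_inv, norm_norm, inv_mul_cancel₀ h2.ne']
  obtain ⟨y, hy, hy'⟩ := h.finset hεpos
    (htfin.toFinset.image (pt w) ∪ htfin.toFinset.image (pt (-w))) (by
      intro x hx
      rw [Finset.mem_union, Finset.mem_image, Finset.mem_image] at hx
      rcases hx with ⟨z, hz, rfl⟩ | ⟨z, hz, rfl⟩
      · exact hpt w z hw (ht1 z (htfin.mem_toFinset.1 hz))
      · exact hpt (-w) z (by rw [norm_neg, hw]) (ht1 z (htfin.mem_toFinset.1 hz))) f hf1.le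
  have hy0 : ∃ g : X →L[ℝ] ℝ, ‖g‖ ≤ 1 ∧ g y = 1 := by
    obtain ⟨g, hg, hgy⟩ := exists_dual_vector ℝ y (by rw [hy]; exact one_ne_zero)
    exact ⟨g, hg.le, by rw [hgy, hy]; simp⟩
  obtain ⟨g, hg1, hgy, hgE⟩ := core E hη (by linarith) t htE f hf1.le ht1 w hw hε hfw y hy
    (by
      intro z hz
      apply hy'
      rw [Finset.mem_union, Finset.mem_image]
      exact Or.inl ⟨z, htfin.mem_toFinset.2 hz, rfl⟩) hy0
  obtain ⟨g', hg'1, hg'y, hg'E⟩ := core E hη (by linarith) t htE (-f) (by rw [norm_neg, hf1]) ht1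
    (-w) (by rw [norm_neg, hw]) hε (by simpa using hfw) y hy
    (by
      intro z hz
      rw [_root_.neg_apply, abs_neg]
      apply hy'
      rw [Finset.mem_union, Finset.mem_image, Finset.mem_image]
      exact Or.inr ⟨z, htfin.mem_toFinset.2 hz, rfl⟩) hy0
  refine ⟨y, hy, fun x hx => ?_⟩
  rw [hy, ← hff x hx]
  have hle : ∀ (k : X →L[ℝ] ℝ), ‖k‖ ≤ 1 → ∀ v, k v ≤ ‖v‖ := fun k hk v => by
    calc k v ≤ ‖k v‖ := le_abs_self _
      _ ≤ ‖k‖ * ‖v‖ := k.le_opNorm v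
      _ ≤ 1 * ‖v‖ := by gcongr
      _ = ‖v‖ := one_mul _
  have h1 : |f x| + 1 - η - η * ‖x‖ ≤ ‖x + y‖ := by
    have a1 := hle g hg1 (x + y)
    have a2 := hle g' hg'1 (x + y)
    rw [map_add] at a1 a2
    have b1 := abs_le.1 (hgE x hx)
    have b2 := abs_le.1 (hg'E x hx)
    rw [_root_.neg_apply] at b2
    rcases abs_cases (f x) with ⟨hc, -⟩ | ⟨hc, -⟩
    · rw [hc]; linarith [b1.1]
    · rw [hc]; linarith [b2.1]
  have h2 : ‖x‖ - 1 ≤ ‖x + y‖ := by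
    have := norm_sub_norm_le x (-y)
    rw [norm_neg, hy, sub_neg_eq_add] at this
    exact this
  have h3 : 0 ≤ |f x| := abs_nonneg _
  rcases le_or_gt (|f x| + 1) (‖x‖ - 1) with h4 | h4
  · nlinarith
  · -- `‖x‖ ≤ |f x| + 2`
    have h5 : η * ‖x‖ ≤ η * (|f x| + 2) := by gcongr; linarith
    nlinarith

/-- A real Banach space is weakly octahedral if and only if it has property (P). -/
theorem result (X : Type*) [NormedAddCommGroup X] [NormedSpace ℝ X] [CompleteSpace X] :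
    WeaklyOctahedral X ↔ PropertyP X :=
  ⟨fun h => h.propertyP, fun h => h.weaklyOctahedral⟩

end Pool.Agent.Results.MP_140fc6_an.FinitePoints
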